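import Pool.Agent.helper59.BR.SpecH

/-!
# Project BR (MP_baa4d7_al), block H, row HL1: the bound for the contributions
-/

set_option autoImplicit false

namespace Pool.Agent.BR

open Pool.Agent.helper58.DC Pool.Agent.DI Pool.Agent.GR Pool.Agent.OB Pool.Agent.DR Pool.Agent.FI Pool.Agent.FI3 Pool.Agent.FI4 Pool.Agent.LE

/-- Cauchy-Schwarz -/
theorem HL1_cs {ι : Type} (S : Set ι) (hS : S.Finite) (f g : ι → ℂ) :
    ‖∑ᶠ η ∈ S, f η * (starRingEnd ℂ) (g η)‖ ≤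
      (‖∑ᶠ η ∈ S, f η * (starRingEnd ℂ) (f η)‖ + ‖∑ᶠ η ∈ S, g η * (starRingEnd ℂ) (g η)‖) / 2 := by
  classical
  rw [finsum_mem_eq_finite_toFinset_sum _ hS, finsum_mem_eq_finite_toFinset_sum _ hS, finsum_mem_eq_finite_toFinset_sum _ hS]
  have h1 : ∀ h : ι → ℂ, ‖∑ η ∈ hS.toFinset, h η * (starRingEnd ℂ) (h η)‖ = ∑ η ∈ hS.toFinset, ‖h η‖ ^ 2 := by
    intro h
    have h2 : ∑ η ∈ hS.toFinset, h η * (starRingEnd ℂ) (h η) = ((∑ η ∈ hS.toFinset, ‖h η‖ ^ 2 : ℝ) : ℂ) := by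
      push_cast
      exact Finset.sum_congr rfl fun η _ => Complex.mul_conj' (h η)
    rw [h2, Complex.norm_real, Real.norm_of_nonneg (Finset.sum_nonneg fun η _ => by positivity)]
  rw [h1, h1]
  refine (norm_sum_le _ _).trans ?_
  rw [← Finset.sum_add_distrib, Finset.sum_div]
  refine Finset.sum_le_sum fun η _ => ?_
  rw [norm_mul, RCLike.norm_conj]
  nlinarith [sq_nonneg (‖f η‖ - ‖g η‖)]

/-- the bound for one character -/
theorem HL1_one (hHBP : HBP_stmt) (hHWT : HWT_stmt) (hHPT : HPT_stmt) (hHPO : HPO_stmt) (hB2 : B2_stmt)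
    (p : ℕ) (M : Ideal (integralClosure ℤ ℂ)) (hM : Setup p M) (G : Type) [Group G] [Finite G]
    (D : Subgroup G) (x : G) (θ χ : G → ℂ) (lo : LoA p M D x θ χ) (ψ₀ : G → ℂ) (hψ₀ : ψ₀ ∈ Bl M (⊤ : Subgroup G) θ) :
    ∑ᶠ u ∈ (D : Set G), ‖ci M D θ u * PP p M θ ψ₀ ψ₀ u‖ ≤ iI M D θ := by
  classical
  have hfin : (Bl M (⊤ : Subgroup G) θ).Finite := (hB2 G ⊤).1.subset fun ψ hψ => hψ.1
  have : Fintype (Bl M (⊤ : Subgroup G) θ) := hfin.fintype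
  have : Fintype D := Fintype.ofFinite D
  have hW := fun u : D => hHWT M G D θ lo.rt.th u.1 u.2
  choose c hc1 hc using fun u : D => (hW u).2
  have hI0 : iI M D θ ≠ 0 := by
    unfold iI
    exact Subgroup.index_ne_zero_of_finite
  have hI : (0 : ℝ) < iI M D θ := by exact_mod_cast Nat.pos_of_ne_zero hI0
  have hTD : ∀ t ∈ TT M D θ, ∀ u ∈ D, t * u * t⁻¹ ∈ D := by
    intro t ht u hu
    exact (Subgroup.mem_normalizer_iff.1 (mem_TT.1 ht).1 u).1 hu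
  have key := hHBP (Bl M (⊤ : Subgroup G) θ) D (fun u u' => ∃ t ∈ TT M D θ, t * (u : G) * t⁻¹ = u') (fun u => c u / iI M D θ)
    (fun u ψ => PP p M θ ψ ψ₀ u) ⟨ψ₀, hψ₀⟩ (fun u => div_nonneg (by linarith [hc1 u]) hI.le) ?_ ?_ ?_ ?_
  · have h2 := key.2
    rw [← finsum_set_coe_eq_finsum_mem, finsum_eq_sum_of_fintype]
    have h3 : ∀ u : D, ‖ci M D θ u * PP p M θ ψ₀ ψ₀ u‖ = iI M D θ * (c u / iI M D θ * ‖PP p M θ ψ₀ ψ₀ u‖) := by
      intro u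
      rw [norm_mul, hc u, Complex.norm_real, Real.norm_of_nonneg (by linarith [hc1 u])]
      field_simp
    have h4 : ∑ u : (D : Set G), ‖ci M D θ u * PP p M θ ψ₀ ψ₀ u‖ = iI M D θ * ∑ u : D, c u / iI M D θ * ‖PP p M θ ψ₀ ψ₀ u‖ := by
      rw [Finset.mul_sum]
      exact Finset.sum_congr rfl fun u _ => h3 u
    rw [h4]
    calc (iI M D θ : ℝ) * ∑ u : D, c u / iI M D θ * ‖PP p M θ ψ₀ ψ₀ u‖ ≤ iI M D θ * 1 := mul_le_mul_of_nonneg_left h2 hI.le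
      _ = _ := mul_one _
  · -- the weights
    intro u
    have h1 := (hW u).1
    have h2 : {u' : G | ∃ t ∈ TT M D θ, t * (u : G) * t⁻¹ = u'} = (Subtype.val : D → G) '' {u' : D | ∃ t ∈ TT M D θ, t * (u : G) * t⁻¹ = u'} := by
      ext g
      constructor
      · rintro ⟨t, ht, rfl⟩
        exact ⟨⟨_, hTD t ht u u.2⟩, ⟨t, ht, rfl⟩, rfl⟩
      · rintro ⟨u', ⟨t, ht, h⟩, rfl⟩
        exact ⟨t, ht, h⟩
    rw [h2, finsum_mem_image Subtype.val_injective.injOn, finsum_mem_eq_finite_toFinset_sum _ (Set.toFinite _)] at h1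
    rw [finsum_mem_eq_finite_toFinset_sum _ (Set.toFinite _), ← Finset.sum_div]
    have h3 : ((∑ u' ∈ (Set.toFinite {u' : D | ∃ t ∈ TT M D θ, t * (u : G) * t⁻¹ = u'}).toFinset, c u' : ℝ) : ℂ) = ((iI M D θ : ℝ) : ℂ) := by
      push_cast
      rw [← h1]
      exact Finset.sum_congr rfl fun u' _ => (hc u').symm
    rw [Complex.ofReal_injective h3, div_self hI.ne']
  · rintro u u' ⟨t, ht, h⟩
    funext ψ
    show PP p M θ ψ ψ₀ u' = PP p M θ ψ ψ₀ u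
    rw [← h]
    exact hHPT p M hM G D x θ χ lo u u.2 t ht ψ ψ.2.1 ψ₀ hψ₀.1
  · intro u u' h
    have h1 := (hHPO p M hM G D x θ χ lo ψ₀ hψ₀ u u.2).2 u' u'.2 (fun t ht h2 => h ⟨t, ht, h2⟩)
    rw [← finsum_set_coe_eq_finsum_mem, finsum_eq_sum_of_fintype] at h1
    exact h1
  · intro u
    have h1 := (hHPO p M hM G D x θ χ lo ψ₀ hψ₀ u u.2).1
    rw [← finsum_set_coe_eq_finsum_mem, finsum_eq_sum_of_fintype] at h1
    exact h1

theorem HL1 (hHBP : HBP_stmt) (hHWT : HWT_stmt) (hHPT : HPT_stmt) (hHPO : HPO_stmt) (hHGR : HGR_stmt) (hB2 : B2_stmt) : HL1_stmt := by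
  intro p M hM G _ _ D x θ χ lo ψ hψ ψ' hψ'
  classical
  have h1 := HL1_one hHBP hHWT hHPT hHPO hB2 p M hM G D x θ χ lo ψ hψ
  have h2 := HL1_one hHBP hHWT hHPT hHPO hB2 p M hM G D x θ χ lo ψ' hψ'
  have hD : (D : Set G).Finite := Set.toFinite _
  rw [finsum_mem_eq_finite_toFinset_sum _ hD] at h1 h2 ⊢
  have h3 : ∀ u : G, ‖ci M D θ u * PP p M θ ψ ψ' u‖ ≤ (‖ci M D θ u * PP p M θ ψ ψ u‖ + ‖ci M D θ u * PP p M θ ψ' ψ' u‖) / 2 := by
    intro u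
    have hfin : (Bl M (Cz (⊤ : Subgroup G) u) θ).Finite := (hB2 G (Cz (⊤ : Subgroup G) u)).1.subset fun η hη => hη.1
    have h4 := HL1_cs (Bl M (Cz (⊤ : Subgroup G) u) θ) hfin (fun η => az p (Cz (⊤ : Subgroup G) u) η ψ u) (fun η => az p (Cz (⊤ : Subgroup G) u) η ψ' u)
    rw [← hHGR p M hM G θ u ψ hψ.1 ψ' hψ'.1, ← hHGR p M hM G θ u ψ hψ.1 ψ hψ.1, ← hHGR p M hM G θ u ψ' hψ'.1 ψ' hψ'.1] at h4
    rw [norm_mul, norm_mul, norm_mul, ← mul_add, mul_div_assoc]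
    exact mul_le_mul_of_nonneg_left h4 (norm_nonneg _)
  refine (Finset.sum_le_sum fun u _ => h3 u).trans ?_
  rw [← Finset.sum_div, Finset.sum_add_distrib]
  linarith

end Pool.Agent.BR
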