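import Pool.Agent.helper45.BR.Spec

/-!
# Project br: (MP_af9036_an, MP_70a088_an), module EXT: extension of a Beltrami form along the grand orbit
-/

set_option autoImplicit false

open Complex Metric Set Filter Topology MeasureTheory MPS Pool.Agent.helper98.ILF
  Pool.Agent.helper16.Multibrot

noncomputable section

namespace BR

/-- `conj u / u`. -/
def EXT_th (u : ℂ) : ℂ := (starRingEnd ℂ) u / u

theorem EXT_th_mul (u w : ℂ) : EXT_th (u * w) = EXT_th u * EXT_th w := by
  unfold EXT_th
  rw [map_mul, mul_div_mul_comm]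

theorem EXT_th_one : EXT_th 1 = 1 := by
  unfold EXT_th
  simp

theorem EXT_th_norm {u : ℂ} (hu : u ≠ 0) : ‖EXT_th u‖ = 1 := by
  unfold EXT_th
  rw [norm_div, Complex.norm_conj, div_self (norm_ne_zero_iff.mpr hu)]

theorem EXT_th_le (u : ℂ) : ‖EXT_th u‖ ≤ 1 := by
  by_cases hu : u = 0
  · subst hu
    unfold EXT_th
    simp
  · exact (EXT_th_norm hu).le

theorem EXT_th_ne {u : ℂ} (hu : u ≠ 0) : EXT_th u ≠ 0 := by
  intro h
  have := EXT_th_norm hu
  rw [h, norm_zero] at this
  norm_num at this

theorem EXT_th_meas : Measurable EXT_th := by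
  unfold EXT_th
  exact (Complex.continuous_conj.measurable).div measurable_id

/-- The inverse of an open injective continuous map is continuous on the image. -/
theorem EXT_inv (g : ℂ → ℂ) (S : Set ℂ) (hg : IsOpenMap g) (hS : IsOpen S) (hinj : InjOn g S) :
    ∃ G : ℂ → ℂ, Measurable G ∧ ∀ x ∈ S, G (g x) = x := by
  classical
  have h1 : ∀ x ∈ S, Function.invFunOn g S (g x) = x := fun x hx => hinj.leftInvOn_invFunOn hx
  have hopen : IsOpen (g '' S) := hg S hS
  have hcont : ContinuousOn (Function.invFunOn g S) (g '' S) := by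
    rw [continuousOn_open_iff hopen]
    intro t ht
    have : g '' S ∩ Function.invFunOn g S ⁻¹' t = g '' (S ∩ t) := by
      ext y
      constructor
      · rintro ⟨⟨x, hx, rfl⟩, hy⟩
        rw [mem_preimage, h1 x hx] at hy
        exact ⟨x, ⟨hx, hy⟩, rfl⟩
      · rintro ⟨x, ⟨hx, hxt⟩, rfl⟩
        refine ⟨⟨x, hx, rfl⟩, ?_⟩
        rw [mem_preimage, h1 x hx]
        exact hxt
    rw [this]
    exact hg _ (hS.inter ht)
  refine ⟨(g '' S).piecewise (Function.invFunOn g S) (fun _ => 0), ?_, ?_⟩
  · exact ContinuousOn.measurable_piecewise hcont continuousOn_const hopen.measurableSet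
  · intro x hx
    rw [piecewise_eq_of_mem _ _ _ (mem_image_of_mem g hx), h1 x hx]

theorem EXT (hBAS : BAS_stmt) : EXT_stmt := by
  classical
  intro n c U hn hc hW
  obtain ⟨hK4, -, hint, hprod, -⟩ := hBAS n c hn hc
  obtain ⟨f, hf⟩ : ∃ f, f = fc n c := ⟨_, rfl⟩
  rw [← hf] at hint hprod
  -- basic facts on the sets `U k`
  have hUint : ∀ k, U k ⊆ interior (filled n c) := by
    intro k
    obtain ⟨z, hz, hUz⟩ := hW.comp k
    rw [hUz]
    exact connectedComponentIn_subset _ _
  have hUopen : ∀ k, IsOpen (U k) := by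
    intro k
    obtain ⟨z, hz, hUz⟩ := hW.comp k
    rw [hUz]
    exact isOpen_interior.connectedComponentIn
  have hmaps : ∀ j k, MapsTo (f^[j]) (U k) (U (k + j)) := by
    intro j
    induction j with
    | zero => intro k x hx; exact hx
    | succ j ih =>
      intro k x hx
      rw [Function.iterate_succ_apply]
      have h1 : f x ∈ U (k + 1) := by rw [hf]; exact hW.mt k hx
      have h2 := ih (k + 1) h1
      have h3 : k + 1 + j = k + (j + 1) := by omega
      rw [h3] at h2
      exact h2
  have hinj : ∀ j k, InjOn (f^[j]) (U k) := by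
    intro j
    induction j with
    | zero => intro k x _ y _ h; exact h
    | succ j ih =>
      intro k x hx y hy h
      rw [Function.iterate_succ_apply, Function.iterate_succ_apply] at h
      have h1 : f x ∈ U (k + 1) := by rw [hf]; exact hW.mt k hx
      have h2 : f y ∈ U (k + 1) := by rw [hf]; exact hW.mt k hy
      have h3 := ih (k + 1) h1 h2 h
      rw [hf] at h3
      exact hW.inj k hx hy h3
  have huniq : ∀ j j' x x', x ∈ U 0 → x' ∈ U 0 → f^[j] x = f^[j'] x' → j = j' ∧ x = x' := by
    intro j j' x x' hx hx' h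
    have h1 := hmaps j 0 hx
    have h2 := hmaps j' 0 hx'
    rw [zero_add] at h1 h2
    have hj : j = j' := by
      by_contra hne
      have := hW.disj j j' hne
      rw [Set.disjoint_left] at this
      refine this h1 ?_
      rw [h]
      exact h2
    subst hj
    exact ⟨rfl, hinj j 0 hx hx' h⟩
  have hfd : ∀ z : ℂ, z ≠ 0 → fd n z ≠ 0 := by
    intro z hz
    unfold fd
    refine mul_ne_zero ?_ (pow_ne_zero _ hz)
    have : n ≠ 0 := by omega
    exact_mod_cast this
  have hUne : ∀ k, ∀ z ∈ U k, z ≠ 0 := by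
    intro k z hz h0
    rw [h0] at hz
    exact hW.n0 k hz
  have hmlt0 : ∀ j, ∀ x ∈ U 0, mlt n j c x ≠ 0 := by
    intro j x hx
    rw [hprod]
    refine Finset.prod_ne_zero_iff.mpr fun i _ => ?_
    apply hfd
    have := hmaps i 0 hx
    exact hUne _ _ this
  have hmltS : ∀ i z, mlt n (i + 1) c z = fd n z * mlt n i c (f z) := by
    intro i z
    rw [hprod, hprod, Finset.prod_range_succ', mul_comm]
    congr 1
  have hmltS' : ∀ i z, mlt n (i + 1) c z = mlt n i c z * fd n (f^[i] z) := by
    intro i z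
    rw [hprod, hprod, Finset.prod_range_succ]
  have hmlt00 : ∀ z, mlt n 0 c z = 1 := by
    intro z
    rw [hprod, Finset.range_zero, Finset.prod_empty]
  -- topology
  have hfcont : Continuous f := by
    rw [hf]; unfold fc; fun_prop
  have hfopen : IsOpenMap f := by
    rw [hf]; exact isOpenMap_pow hn c
  have hfj : ∀ j, IsOpenMap (f^[j]) := by
    intro j
    induction j with
    | zero => exact IsOpenMap.id
    | succ j ih => rw [Function.iterate_succ]; exact ih.comp hfopen
  have hfjc : ∀ j, Continuous (f^[j]) := fun j => hfcont.iterate j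
  obtain ⟨V, hV⟩ : ∃ V : Set ℂ, V = ⋃ j, f^[j] '' (U 0) := ⟨_, rfl⟩
  have hVopen : IsOpen V := by
    rw [hV]
    exact isOpen_iUnion fun j => hfj j _ (hUopen 0)
  have hVint : V ⊆ interior (filled n c) := by
    intro y hy
    rw [hV, mem_iUnion] at hy
    obtain ⟨j, x, hx, rfl⟩ := hy
    exact hUint _ (hmaps j 0 hx)
  have hVmem : ∀ j, ∀ x ∈ U 0, f^[j] x ∈ V := by
    intro j x hx
    rw [hV]
    exact mem_iUnion.mpr ⟨j, x, hx, rfl⟩
  have hVf : ∀ y ∈ V, f y ∈ V := by
    intro y hy
    rw [hV, mem_iUnion] at hy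
    obtain ⟨j, x, hx, rfl⟩ := hy
    have := hVmem (j + 1) x hx
    rw [Function.iterate_succ_apply'] at this
    exact this
  have hVne : ∀ y ∈ V, y ≠ 0 := by
    intro y hy
    rw [hV, mem_iUnion] at hy
    obtain ⟨j, x, hx, rfl⟩ := hy
    exact hUne _ _ (hmaps j 0 hx)
  have hsel : ∀ y : ℂ, ∃ p : ℕ × ℂ, y ∈ V → p.2 ∈ U 0 ∧ f^[p.1] p.2 = y := by
    intro y
    by_cases hy : y ∈ V
    · rw [hV, mem_iUnion] at hy
      obtain ⟨j, x, hx, h⟩ := hy
      exact ⟨(j, x), fun _ => ⟨hx, h⟩⟩
    · exact ⟨(0, 0), fun h => absurd h hy⟩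
  choose P hP using hsel
  obtain ⟨h, hh⟩ : ∃ h : (ℂ → ℂ) → ℂ → ℂ, h = fun ν y =>
      if y ∈ V then ν (P y).2 / EXT_th (mlt n (P y).1 c (P y).2) else 0 := ⟨_, rfl⟩
  have hchar : ∀ (ν : ℂ → ℂ) (j : ℕ), ∀ x ∈ U 0, h ν (f^[j] x) = ν x / EXT_th (mlt n j c x) := by
    intro ν j x hx
    have h1 := hVmem j x hx
    obtain ⟨h2, h3⟩ := hP _ h1
    obtain ⟨h4, h5⟩ := huniq _ _ _ _ h2 hx h3
    rw [hh]
    simp only
    rw [if_pos h1, h5, h4]
  obtain ⟨Z, hZ⟩ : ∃ Z : Set ℂ, Z = {z | ∃ i, f^[i] z ∈ V} := ⟨_, rfl⟩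
  obtain ⟨N, hN⟩ : ∃ N : ℂ → ℕ, N = fun z => sInf {i | f^[i] z ∈ V} := ⟨_, rfl⟩
  have hNmem : ∀ z ∈ Z, f^[N z] z ∈ V := by
    intro z hz
    rw [hZ] at hz
    rw [hN]
    exact Nat.sInf_mem (s := {i | f^[i] z ∈ V}) hz
  have hNlt : ∀ z, ∀ i < N z, f^[i] z ∉ V := by
    intro z i hi
    rw [hN] at hi
    exact Nat.notMem_of_lt_sInf hi
  have hNeq : ∀ z i, f^[i] z ∈ V → (∀ l < i, f^[l] z ∉ V) → z ∈ Z ∧ N z = i := by
    intro z i h1 h2
    have hz : z ∈ Z := by rw [hZ]; exact ⟨i, h1⟩
    refine ⟨hz, ?_⟩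
    rcases lt_trichotomy (N z) i with h3 | h3 | h3
    · exact absurd (hNmem z hz) (h2 _ h3)
    · exact h3
    · exact absurd h1 (hNlt z i h3)
  obtain ⟨E, hE⟩ : ∃ E : (ℂ → ℂ) → ℂ → ℂ, E = fun ν z =>
      if z ∈ Z then EXT_th (mlt n (N z) c z) * h ν (f^[N z] z) else 0 := ⟨_, rfl⟩
  have hEin : ∀ ν z, z ∈ Z → E ν z = EXT_th (mlt n (N z) c z) * h ν (f^[N z] z) := by
    intro ν z hz
    rw [hE]
    simp only
    rw [if_pos hz]
  have hEout : ∀ ν z, z ∉ Z → E ν z = 0 := by
    intro ν z hz
    rw [hE]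
    simp only
    rw [if_neg hz]
  -- values on `V`
  have hEV : ∀ ν, ∀ y ∈ V, E ν y = h ν y := by
    intro ν y hy
    obtain ⟨h1, h2⟩ := hNeq y 0 hy (fun l hl => absurd hl (Nat.not_lt_zero l))
    rw [hEin ν y h1, h2, hmlt00, EXT_th_one, one_mul]
    rfl
  -- invariance
  have hinv : ∀ ν z, E ν (f z) * EXT_th (fd n z) = E ν z := by
    intro ν z
    by_cases hz : z ∈ Z
    · rcases Nat.eq_zero_or_pos (N z) with h0 | h0
      · -- `z ∈ V`
        have hzV : z ∈ V := by
          have := hNmem z hz
          rw [h0] at this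
          exact this
        have hzV2 := hzV
        rw [hV, mem_iUnion] at hzV2
        obtain ⟨j, x, hx, hxz⟩ := hzV2
        rw [hEV ν z hzV, hEV ν (f z) (hVf z hzV)]
        have e1 : f z = f^[j + 1] x := by rw [Function.iterate_succ_apply', hxz]
        rw [e1, hchar ν (j + 1) x hx, hmltS', hxz]
        have e2 : h ν z = ν x / EXT_th (mlt n j c x) := by rw [← hchar ν j x hx, hxz]
        rw [e2, EXT_th_mul]
        have h5 : EXT_th (fd n z) ≠ 0 := EXT_th_ne (hfd z (hVne z hzV))
        have h6 : EXT_th (mlt n j c x) ≠ 0 := EXT_th_ne (hmlt0 j x hx)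
        field_simp
      · obtain ⟨i, hi⟩ : ∃ i, N z = i + 1 := ⟨N z - 1, by omega⟩
        have h1 : f^[i] (f z) ∈ V := by
          have := hNmem z hz
          rw [hi, Function.iterate_succ_apply] at this
          exact this
        have h2 : ∀ l < i, f^[l] (f z) ∉ V := by
          intro l hl
          have := hNlt z (l + 1) (by omega)
          rw [Function.iterate_succ_apply] at this
          exact this
        obtain ⟨h3, h4⟩ := hNeq (f z) i h1 h2
        rw [hEin ν z hz, hEin ν (f z) h3, h4, hi, hmltS, EXT_th_mul, Function.iterate_succ_apply]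
        ring
    · have hz2 : f z ∉ Z := by
        intro h1
        rw [hZ] at h1
        obtain ⟨i, hi⟩ := h1
        apply hz
        rw [hZ]
        refine ⟨i + 1, ?_⟩
        rw [Function.iterate_succ_apply]
        exact hi
      rw [hEout ν z hz, hEout ν (f z) hz2, zero_mul]
  refine ⟨E, ?_, ?_⟩
  · intro ν hνm hνb hνs
    -- bound of `h`
    have hhb : ∀ y, ‖h ν y‖ ≤ 1 := by
      intro y
      by_cases hy : y ∈ V
      · have hy2 := hy
        rw [hV, mem_iUnion] at hy2
        obtain ⟨j, x, hx, rfl⟩ := hy2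
        rw [hchar ν j x hx, norm_div, EXT_th_norm (hmlt0 j x hx), div_one]
        exact hνb x
      · rw [hh]
        simp only
        rw [if_neg hy]
        simp
    -- measurability of `h`
    have hhm : Measurable (h ν) := by
      have hG : ∀ j : ℕ, ∃ G : ℂ → ℂ, Measurable G ∧ ∀ x ∈ U 0, G (f^[j] x) = x := fun j =>
        EXT_inv (f^[j]) (U 0) (hfj j) (hUopen 0) (hinj j 0)
      choose G hGm hG using hG
      obtain ⟨F, hFm, hF⟩ := exists_measurable_piecewise (fun j : ℕ => f^[j] '' (U 0))
        (fun j => (hfj j _ (hUopen 0)).measurableSet)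
        (fun j y => ν (G j y) / EXT_th (mlt n j c (G j y)))
        (fun j => (hνm.comp (hGm j)).div
          (EXT_th_meas.comp ((measurable_deriv _).comp (hGm j))))
        (by
          intro i j hij y hy
          exfalso
          obtain ⟨⟨x, hx, hxy⟩, ⟨x', hx', hxy'⟩⟩ := hy
          exact hij (huniq i j x x' hx hx' (by rw [hxy, hxy'])).1)
      have : h ν = V.indicator F := by
        funext y
        by_cases hy : y ∈ V
        · rw [indicator_of_mem hy]
          have hy2 := hy
          rw [hV, mem_iUnion] at hy2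
          obtain ⟨j, x, hx, rfl⟩ := hy2
          rw [hchar ν j x hx, hF j ⟨x, hx, rfl⟩]
          simp only
          rw [hG j x hx]
        · rw [indicator_of_notMem hy, hh]
          simp only
          rw [if_neg hy]
      rw [this]
      exact hFm.indicator hVopen.measurableSet
    -- measurability of `E`
    have hEm : Measurable (E ν) := by
      have hVm : ∀ i, MeasurableSet {z | f^[i] z ∈ V} := fun i =>
        (hVopen.preimage (hfjc i)).measurableSet
      have htm : ∀ i : ℕ, MeasurableSet {z | f^[i] z ∈ V ∧ ∀ l < i, f^[l] z ∉ V} := by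
        intro i
        have : {z | f^[i] z ∈ V ∧ ∀ l < i, f^[l] z ∉ V} =
            {z | f^[i] z ∈ V} ∩ ⋂ l, ⋂ (_ : l < i), {z | f^[l] z ∈ V}ᶜ := by
          ext z
          simp
        rw [this]
        refine (hVm i).inter (MeasurableSet.iInter fun l => MeasurableSet.iInter fun _ => ?_)
        exact (hVm l).compl
      obtain ⟨F, hFm, hF⟩ := exists_measurable_piecewise
        (fun i : ℕ => {z | f^[i] z ∈ V ∧ ∀ l < i, f^[l] z ∉ V}) htm
        (fun i z => EXT_th (mlt n i c z) * h ν (f^[i] z))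
        (fun i => (EXT_th_meas.comp (measurable_deriv _)).mul (hhm.comp (hfjc i).measurable))
        (by
          intro i j hij z hz
          exfalso
          obtain ⟨⟨h1, h2⟩, ⟨h3, h4⟩⟩ := hz
          have h5 := (hNeq z i h1 h2).2
          have h6 := (hNeq z j h3 h4).2
          exact hij (h5.symm.trans h6))
      have hZm : MeasurableSet Z := by
        have : Z = ⋃ i, {z | f^[i] z ∈ V} := by
          rw [hZ]
          ext z
          simp
        rw [this]
        exact MeasurableSet.iUnion hVm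
      have : E ν = Z.indicator F := by
        funext z
        by_cases hz : z ∈ Z
        · rw [indicator_of_mem hz, hEin ν z hz]
          rw [hF (N z) ⟨hNmem z hz, hNlt z⟩]
        · rw [indicator_of_notMem hz, hEout ν z hz]
      rw [this]
      exact hFm.indicator hZm
    refine ⟨⟨hEm, ?_, ?_, ?_⟩, ?_⟩
    · intro z
      by_cases hz : z ∈ Z
      · rw [hEin ν z hz, norm_mul]
        exact mul_le_one₀ (EXT_th_le _) (norm_nonneg _) (hhb _)
      · rw [hEout ν z hz]
        simp
    · intro z hz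
      have hzZ : z ∈ Z := by
        by_contra h1
        exact hz (hEout ν z h1)
      have h1 : f^[N z] z ∈ interior (filled n c) := hVint (hNmem z hzZ)
      have h2 : ∀ i z, f^[i] z ∈ interior (filled n c) → z ∈ interior (filled n c) := by
        intro i
        induction i with
        | zero => intro z h; exact h
        | succ i ih =>
          intro z h
          rw [Function.iterate_succ_apply] at h
          exact (hint z).mpr (ih _ h)
      have h3 := hK4 (interior_subset (h2 _ z h1))
      rw [mem_ball, dist_zero_right] at h3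
      exact h3
    · refine Filter.Eventually.of_forall fun z => ?_
      have h1 := hinv ν z
      have h2 : f z = z ^ n + c := by rw [hf]; rfl
      rw [h2] at h1
      unfold EXT_th at h1
      rw [mul_div_assoc]
      exact h1
    · intro z hz
      have h1 : z ∈ V := hVmem 0 z hz
      rw [hEV ν z h1]
      have h2 := hchar ν 0 z hz
      rw [hmlt00, EXT_th_one, div_one] at h2
      exact h2
  · intro ν₁ ν₂ s t z
    by_cases hz : z ∈ Z
    · rw [hEin _ z hz, hEin _ z hz, hEin _ z hz, hh]
      simp only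
      split_ifs
      · ring
      · ring
    · rw [hEout _ z hz, hEout _ z hz, hEout _ z hz]
      ring

end BR
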