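import Pool.Agent.helper45.BR.Spec

/-!
# Project br: (MP_af9036_an, MP_70a088_an), module WKA: difference quotients
-/

set_option autoImplicit false

open Complex Metric Set Filter Topology MeasureTheory MPS Pool.Agent.helper98.ILF
  Pool.Agent.helper16.Multibrot

noncomputable section

namespace BR

/-- The four point difference quotient. -/
def WKA_u (v : ℂ → ℂ) (s : ℝ) (z : ℂ) : ℂ :=
  (v (z + s) - v (z - s) + I * v (z + I * s) - I * v (z - I * s)) / (4 * s)

/-- The transposed difference quotient. -/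
def WKA_D (φ : ℂ → ℂ) (s : ℝ) (z : ℂ) : ℂ :=
  (φ (z - s) - φ (z + s) + I * φ (z - I * s) - I * φ (z + I * s)) / (4 * s)

theorem WKA_bound (v : ℂ → ℂ) (M : ℝ) (h : CR M v univ) (s : ℝ) (hs : 0 < s) (z : ℂ) (hM : 0 ≤ M) :
    ‖WKA_u v s z‖ ≤ M := by
  have hs0 : (s : ℂ) ≠ 0 := by exact_mod_cast hs.ne'
  have hI : I * (s : ℂ) ≠ 0 := mul_ne_zero I_ne_zero hs0
  have hn1 : ‖(s : ℂ)‖ = s := by rw [Complex.norm_real, Real.norm_eq_abs, abs_of_pos hs]
  have h1 : ‖(v (z + s) - v z) / s - (v (z + I * s) - v z) / (I * s)‖ ≤ M := by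
    have := h z s (I * s) hs0 hI (mem_univ _) (mem_univ _) (mem_univ _)
    rw [norm_mul, Complex.norm_I, one_mul, hn1, div_self hs.ne', Real.log_one, abs_zero, add_zero,
      mul_one] at this
    exact this
  have h2 : ‖(v (z + (-(s : ℂ))) - v z) / (-(s : ℂ)) - (v (z + (-(I * s))) - v z) / (-(I * s))‖ ≤ M := by
    have := h z (-(s : ℂ)) (-(I * s)) (neg_ne_zero.mpr hs0) (neg_ne_zero.mpr hI) (mem_univ _)
      (mem_univ _) (mem_univ _)
    rw [norm_neg, norm_neg, norm_mul, Complex.norm_I, one_mul, hn1, div_self hs.ne', Real.log_one,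
      abs_zero, add_zero, mul_one] at this
    exact this
  have h3 : WKA_u v s z = ((v (z + s) - v z) / s - (v (z + I * s) - v z) / (I * s)) / 4 +
      ((v (z + (-(s : ℂ))) - v z) / (-(s : ℂ)) - (v (z + (-(I * s))) - v z) / (-(I * s))) / 4 := by
    unfold WKA_u
    have e1 : z + (-(s : ℂ)) = z - s := by ring
    have e2 : z + (-(I * (s : ℂ))) = z - I * s := by ring
    rw [e1, e2]
    have e3 : ∀ w : ℂ, w / (I * s) = -(I * w) / s := by
      intro w
      have : I * (I * w) = -w := by rw [← mul_assoc, I_mul_I]; ring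
      field_simp
      rw [I_sq]
      ring
    rw [div_neg, div_neg, e3, e3]
    field_simp
    ring
  rw [h3]
  calc _ ≤ ‖((v (z + s) - v z) / s - (v (z + I * s) - v z) / (I * s)) / 4‖ +
        ‖((v (z + (-(s : ℂ))) - v z) / (-(s : ℂ)) - (v (z + (-(I * s))) - v z) / (-(I * s))) / 4‖ :=
        norm_add_le _ _
    _ ≤ M / 4 + M / 4 := by
        rw [norm_div, norm_div]
        have : ‖(4 : ℂ)‖ = 4 := by norm_num
        rw [this]
        gcongr
    _ ≤ M := by linarith

/-- Summation by parts. -/
theorem WKA_parts (v φ : ℂ → ℂ) (hv : Continuous v) (hφ : Continuous φ) (hc : HasCompactSupport φ)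
    (s : ℝ) : ∫ z : ℂ, WKA_u v s z * φ z = ∫ z : ℂ, v z * WKA_D φ s z := by
  have hint : ∀ h : ℂ, Integrable (fun z : ℂ => v (z + h) * φ z) := by
    intro h
    apply Continuous.integrable_of_hasCompactSupport (by fun_prop)
    exact hc.mul_left
  have htr : ∀ h : ℂ, ∫ z : ℂ, v (z + h) * φ z = ∫ z : ℂ, v z * φ (z - h) := by
    intro h
    have := integral_add_right_eq_self (μ := (volume : Measure ℂ)) (fun z : ℂ => v z * φ (z - h)) h
    rw [← this]
    congr 1
    funext z
    rw [add_sub_cancel_right]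
  have hint2 : ∀ h : ℂ, Integrable (fun z : ℂ => v z * φ (z - h)) := by
    intro h
    have := (hint h).comp_sub_right h
    refine this.congr (Filter.Eventually.of_forall fun z => ?_)
    simp only [sub_add_cancel]
  have e1 : ∀ z : ℂ, WKA_u v s z * φ z = ((v (z + s) * φ z) - (v (z + (-(s : ℂ))) * φ z) +
      I * (v (z + I * s) * φ z) - I * (v (z + (-(I * s))) * φ z)) * (1 / (4 * s)) := by
    intro z
    unfold WKA_u
    rw [← sub_eq_add_neg z (s : ℂ), ← sub_eq_add_neg z (I * (s : ℂ))]
    ring
  have e2 : ∀ z : ℂ, v z * WKA_D φ s z = ((v z * φ (z - s)) - (v z * φ (z - (-(s : ℂ)))) +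
      I * (v z * φ (z - I * s)) - I * (v z * φ (z - (-(I * s))))) * (1 / (4 * s)) := by
    intro z
    unfold WKA_D
    rw [sub_neg_eq_add, sub_neg_eq_add]
    ring
  simp only [e1, e2]
  rw [integral_mul_const, integral_mul_const]
  congr 1
  have key : ∀ a b c d : ℂ → ℂ, Integrable a → Integrable b → Integrable c → Integrable d →
      ∫ z : ℂ, (a z - b z + I * c z - I * d z) =
        (∫ z, a z) - (∫ z, b z) + I * (∫ z, c z) - I * (∫ z, d z) := by
    intro a b c d ha hb hc' hd
    have i3 : Integrable (fun z => I * c z) := hc'.const_mul I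
    have i4 : Integrable (fun z => I * d z) := hd.const_mul I
    have i12 : Integrable (fun z => a z - b z) := ha.sub hb
    have i123 : Integrable (fun z => a z - b z + I * c z) := i12.add i3
    rw [integral_sub i123 i4, integral_add i12 i3, integral_sub ha hb, integral_const_mul,
      integral_const_mul]
  rw [key _ _ _ _ (hint s) (hint (-(s : ℂ))) (hint (I * s)) (hint (-(I * s))),
    key _ _ _ _ (hint2 s) (hint2 (-(s : ℂ))) (hint2 (I * s)) (hint2 (-(I * s))),
    htr, htr, htr, htr]

/-- Pointwise limit of the transposed difference quotient. -/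
theorem WKA_lim (φ : ℂ → ℂ) (hφ : Differentiable ℝ φ) (z : ℂ) (s : ℕ → ℝ) (hs : ∀ j, 0 < s j)
    (hs0 : Tendsto s atTop (𝓝 0)) : Tendsto (fun j => WKA_D φ (s j) z) atTop (𝓝 (-dbar φ z)) := by
  have key : ∀ w : ℂ, Tendsto (fun j => (φ (z + (s j : ℂ) * w) - φ z) / (s j : ℂ)) atTop
      (𝓝 (fderiv ℝ φ z w)) := by
    intro w
    have h1 : HasDerivAt (fun t : ℝ => φ (z + (t : ℂ) * w)) (fderiv ℝ φ z w) 0 := by
      have h2 : HasFDerivAt φ (fderiv ℝ φ z) (z + ((0 : ℝ) : ℂ) * w) := by
        simpa using (hφ z).hasFDerivAt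
      have h3 : HasDerivAt (fun t : ℝ => z + (t : ℂ) * w) w 0 := by
        have h4 : HasDerivAt (fun t : ℝ => (t : ℂ)) 1 0 := Complex.ofRealCLM.hasDerivAt
        have h5 := (h4.mul_const w).const_add z
        simpa using h5
      exact h2.comp_hasDerivAt (0 : ℝ) h3
    rw [hasDerivAt_iff_tendsto_slope] at h1
    have h6 : Tendsto s atTop (𝓝[≠] 0) := by
      rw [tendsto_nhdsWithin_iff]
      exact ⟨hs0, Filter.Eventually.of_forall fun j => (hs j).ne'⟩
    have h7 := h1.comp h6
    refine h7.congr fun j => ?_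
    simp only [Function.comp, slope, vsub_eq_sub, sub_zero, Complex.ofReal_zero, zero_mul, add_zero,
      Complex.real_smul, Complex.ofReal_inv]
    rw [div_eq_inv_mul]
  have k1 := key 1
  have k2 := key (-1)
  have k3 := key I
  have k4 := key (-I)
  have h8 := (((k2.sub k1).add ((k4.const_mul I))).sub (k3.const_mul I)).mul_const (1 / 4 : ℂ)
  have h9 : (fderiv ℝ φ z (-1) - fderiv ℝ φ z 1 + I * fderiv ℝ φ z (-I) - I * fderiv ℝ φ z I) *
      (1 / 4 : ℂ) = -dbar φ z := by
    unfold dbar
    rw [map_neg, map_neg]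
    ring
  rw [h9] at h8
  refine h8.congr fun j => ?_
  have hsj : (s j : ℂ) ≠ 0 := by exact_mod_cast (hs j).ne'
  unfold WKA_D
  have a1 : z + (s j : ℂ) * (-1) = z - s j := by ring
  have a2 : z + (s j : ℂ) * 1 = z + s j := by ring
  have a3 : z + (s j : ℂ) * (-I) = z - I * s j := by ring
  have a4 : z + (s j : ℂ) * I = z + I * s j := by ring
  rw [a1, a2, a3, a4]
  field_simp
  ring

theorem WKA : WKA_stmt := by
  intro v M hM hv hCR
  refine ⟨fun j => WKA_u v (1 / ((j : ℝ) + 1)), ?_, ?_, ?_⟩
  · intro j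
    unfold WKA_u
    fun_prop
  · intro j z
    exact WKA_bound v M hCR _ (by positivity) z hM
  · intro φ hφ hc
    have hφc : Continuous φ := hφ.continuous
    have hφd : Differentiable ℝ φ := hφ.differentiable (by norm_num)
    obtain ⟨L, hL⟩ := ContDiff.lipschitzWith_of_hasCompactSupport hc hφ (by norm_num)
    obtain ⟨R, hR⟩ := hc.isCompact.isBounded.subset_closedBall (0 : ℂ)
    have hs : ∀ j : ℕ, 0 < 1 / ((j : ℝ) + 1) := fun j => by positivity
    have hs1 : ∀ j : ℕ, 1 / ((j : ℝ) + 1) ≤ 1 := by
      intro j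
      rw [div_le_one (by positivity)]
      have : (0 : ℝ) ≤ j := by positivity
      linarith
    have hs0 : Tendsto (fun j : ℕ => 1 / ((j : ℝ) + 1)) atTop (𝓝 0) :=
      tendsto_one_div_add_atTop_nhds_zero_nat
    have hneg : -∫ z : ℂ, v z * dbar φ z = ∫ z : ℂ, v z * -dbar φ z := by
      rw [← integral_neg]
      congr 1
      funext z
      ring
    rw [hneg]
    have hparts : ∀ j : ℕ, ∫ z : ℂ, WKA_u v (1 / ((j : ℝ) + 1)) z * φ z =
        ∫ z : ℂ, v z * WKA_D φ (1 / ((j : ℝ) + 1)) z := fun j => WKA_parts v φ hv hφc hc _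
    simp only [hparts]
    -- the dominating function
    obtain ⟨B, hB⟩ := (isCompact_closedBall (0 : ℂ) (R + 1)).exists_bound_of_continuousOn
      hv.continuousOn
    refine tendsto_integral_of_dominated_convergence
      ((closedBall (0 : ℂ) (R + 1)).indicator fun _ => B * L) ?_ ?_ ?_ ?_
    · intro j
      apply Continuous.aestronglyMeasurable
      unfold WKA_D
      fun_prop
    · rw [integrable_indicator_iff isClosed_closedBall.measurableSet]
      exact integrableOn_const (by
        exact (isCompact_closedBall (0 : ℂ) (R + 1)).measure_lt_top.ne)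
    · intro j
      refine Filter.Eventually.of_forall fun z => ?_
      obtain ⟨s, hsd⟩ : ∃ s : ℝ, s = 1 / ((j : ℝ) + 1) := ⟨_, rfl⟩
      have hsp : 0 < s := by rw [hsd]; exact hs j
      have hsle : s ≤ 1 := by rw [hsd]; exact hs1 j
      rw [← hsd]
      by_cases hz : z ∈ closedBall (0 : ℂ) (R + 1)
      · rw [indicator_of_mem hz, norm_mul]
        refine mul_le_mul (hB z hz) ?_ (norm_nonneg _) (le_trans (norm_nonneg _) (hB z hz))
        have d1 : ‖φ (z - s) - φ (z + s)‖ ≤ L * (2 * s) := by
          have := hL.dist_le_mul (z - s) (z + s)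
          rw [dist_eq_norm, dist_eq_norm] at this
          have e : z - (s : ℂ) - (z + s) = ((-(2 * s) : ℝ) : ℂ) := by push_cast; ring
          rw [e, Complex.norm_real, Real.norm_eq_abs, abs_neg, abs_of_pos (by linarith)] at this
          exact this
        have d2 : ‖φ (z - I * s) - φ (z + I * s)‖ ≤ L * (2 * s) := by
          have := hL.dist_le_mul (z - I * s) (z + I * s)
          rw [dist_eq_norm, dist_eq_norm] at this
          have e : z - I * (s : ℂ) - (z + I * s) = I * ((-(2 * s) : ℝ) : ℂ) := by push_cast; ring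
          rw [e, norm_mul, Complex.norm_I, one_mul, Complex.norm_real, Real.norm_eq_abs, abs_neg,
            abs_of_pos (by linarith)] at this
          exact this
        unfold WKA_D
        have e3 : φ (z - s) - φ (z + s) + I * φ (z - I * s) - I * φ (z + I * s) =
            (φ (z - s) - φ (z + s)) + I * (φ (z - I * s) - φ (z + I * s)) := by ring
        rw [e3, norm_div]
        have e4 : ‖(4 * (s : ℂ))‖ = 4 * s := by
          rw [norm_mul, Complex.norm_real, Real.norm_eq_abs, abs_of_pos hsp]
          norm_num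
        rw [e4, div_le_iff₀ (by positivity)]
        calc ‖(φ (z - s) - φ (z + s)) + I * (φ (z - I * s) - φ (z + I * s))‖
            ≤ ‖φ (z - s) - φ (z + s)‖ + ‖I * (φ (z - I * s) - φ (z + I * s))‖ := norm_add_le _ _
          _ ≤ L * (2 * s) + L * (2 * s) := by
              rw [norm_mul, Complex.norm_I, one_mul]
              exact add_le_add d1 d2
          _ = (L : ℝ) * (4 * s) := by ring
      · rw [indicator_of_notMem hz]
        have hz1 : R + 1 < ‖z‖ := by
          rw [mem_closedBall, dist_zero_right] at hz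
          linarith
        have hout : ∀ h : ℂ, ‖h‖ ≤ 1 → φ (z + h) = 0 := by
          intro h hh
          apply image_eq_zero_of_notMem_tsupport
          intro hmem
          have h3 := hR hmem
          rw [mem_closedBall, dist_zero_right] at h3
          have h4 : ‖z‖ ≤ ‖z + h‖ + ‖h‖ := by
            have := norm_sub_le (z + h) h
            rw [add_sub_cancel_right] at this
            exact this
          linarith
        have n1 : ‖(s : ℂ)‖ ≤ 1 := by
          rw [Complex.norm_real, Real.norm_eq_abs, abs_of_pos hsp]; exact hsle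
        have n2 : ‖I * (s : ℂ)‖ ≤ 1 := by
          rw [norm_mul, Complex.norm_I, one_mul]; exact n1
        have z1 := hout s n1
        have z2 : φ (z - s) = 0 := by
          rw [sub_eq_add_neg]; exact hout _ (by rw [norm_neg]; exact n1)
        have z3 := hout (I * s) n2
        have z4 : φ (z - I * s) = 0 := by
          rw [sub_eq_add_neg]; exact hout _ (by rw [norm_neg]; exact n2)
        unfold WKA_D
        rw [z1, z2, z3, z4]
        simp
    · refine Filter.Eventually.of_forall fun z => ?_
      exact (WKA_lim φ hφd z _ hs hs0).const_mul (v z)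

end BR
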